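import Pool.Agent.W837.GB.Defs

/-! GB-SE: repairing small singular values. -/

set_option autoImplicit false
open scoped Matrix ComplexOrder

namespace Pool.Agent.W465.GB

open Pool.Agent.W837.GB

section svd

variable {ι : Type} [Fintype ι] [DecidableEq ι]

/-- singular value decomposition -/
lemma svd (M : Matrix ι ι ℂ) : ∃ (U V : Matrix ι ι ℂ) (s : ι → ℝ), Uᴴ * U = 1 ∧ Vᴴ * V = 1 ∧
    (∀ i, 0 ≤ s i) ∧ M = U * Matrix.diagonal (fun i => (s i : ℂ)) * Vᴴ := by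
  classical
  have hps : (Mᴴ * M).PosSemidef := Matrix.posSemidef_conjTranspose_mul_self M
  have hH := hps.isHermitian
  obtain ⟨V, hV⟩ : ∃ V : Matrix ι ι ℂ, V = (hH.eigenvectorUnitary : Matrix ι ι ℂ) := ⟨_, rfl⟩
  obtain ⟨l, hl⟩ : ∃ l : ι → ℝ, l = hH.eigenvalues := ⟨_, rfl⟩
  have hl0 : ∀ i, 0 ≤ l i := fun i => hl ▸ hps.eigenvalues_nonneg i
  have hVV : Vᴴ * V = 1 := by
    rw [hV, ← Matrix.star_eq_conjTranspose]
    exact Matrix.mem_unitaryGroup_iff'.1 hH.eigenvectorUnitary.2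
  have hVV' : V * Vᴴ = 1 := mul_eq_one_comm.1 hVV
  have hsp : Mᴴ * M = V * Matrix.diagonal (fun i => (l i : ℂ)) * Vᴴ := by
    have h := hH.spectral_theorem
    rw [hV, hl]
    conv_lhs => rw [h]
    rfl
  obtain ⟨A, hA⟩ : ∃ A : Matrix ι ι ℂ, A = M * V := ⟨_, rfl⟩
  have hAA : Aᴴ * A = Matrix.diagonal (fun i => (l i : ℂ)) := by
    rw [hA, Matrix.conjTranspose_mul]
    calc Vᴴ * Mᴴ * (M * V) = Vᴴ * (Mᴴ * M) * V := by simp only [Matrix.mul_assoc]
      _ = Vᴴ * (V * Matrix.diagonal (fun i => (l i : ℂ)) * Vᴴ) * V := by rw [hsp]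
      _ = (Vᴴ * V) * Matrix.diagonal (fun i => (l i : ℂ)) * (Vᴴ * V) := by
        simp only [Matrix.mul_assoc]
      _ = _ := by rw [hVV, Matrix.one_mul, Matrix.mul_one]
  obtain ⟨a, ha⟩ : ∃ a : ι → EuclideanSpace ℂ ι, a = fun i => WithLp.toLp 2 (fun x => A x i) :=
    ⟨_, rfl⟩
  have hinner : ∀ i j, inner ℂ (a i) (a j) = (Aᴴ * A) i j := by
    intro i j
    rw [ha, Matrix.mul_apply, PiLp.inner_apply]
    refine Finset.sum_congr rfl fun x _ => ?_
    simp [Matrix.conjTranspose_apply, mul_comm]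
  have hinner2 : ∀ i j, inner ℂ (a i) (a j) = if i = j then (l i : ℂ) else 0 := by
    intro i j
    rw [hinner, hAA, Matrix.diagonal_apply]
  obtain ⟨v, hv⟩ : ∃ v : ι → EuclideanSpace ℂ ι, v = fun i => (((Real.sqrt (l i))⁻¹ : ℝ) : ℂ) • a i :=
    ⟨_, rfl⟩
  have horth : Orthonormal ℂ (({i | 0 < l i} : Set ι).domRestrict v) := by
    rw [orthonormal_iff_ite]
    rintro ⟨i, hi⟩ ⟨j, hj⟩
    have hi' : 0 < l i := hi
    show inner ℂ (v i) (v j) = _
    simp only [hv, inner_smul_left, inner_smul_right, hinner2, Subtype.mk.injEq,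
      Complex.conj_ofReal]
    by_cases h : i = j
    · subst h
      simp only [if_true]
      rw [← Complex.ofReal_mul, ← Complex.ofReal_mul]
      have h1 : (Real.sqrt (l i))⁻¹ * ((Real.sqrt (l i))⁻¹ * l i) = 1 := by
        have h2 := Real.mul_self_sqrt hi'.le
        have h3 : Real.sqrt (l i) ≠ 0 := (Real.sqrt_pos.2 hi').ne'
        field_simp
        rw [sq, h2]
      rw [h1, Complex.ofReal_one]
    · simp [h]
  obtain ⟨b, hb⟩ := horth.exists_orthonormalBasis_extension_of_card_eq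
    (by simp : Module.finrank ℂ (EuclideanSpace ℂ ι) = Fintype.card ι)
  have hab : ∀ i, a i = ((Real.sqrt (l i) : ℝ) : ℂ) • b i := by
    intro i
    rcases (hl0 i).lt_or_eq with h | h
    · rw [hb i h, hv]
      simp only
      rw [smul_smul, ← Complex.ofReal_mul, mul_inv_cancel₀ (Real.sqrt_pos.2 h).ne',
        Complex.ofReal_one, one_smul]
    · have h1 : inner ℂ (a i) (a i) = (0 : ℂ) := by rw [hinner2, if_pos rfl, ← h]; simp
      rw [inner_self_eq_zero] at h1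
      rw [h1, ← h]
      simp
  obtain ⟨U, hU⟩ : ∃ U : Matrix ι ι ℂ, ∀ x i, U x i = b i x := ⟨fun x i => b i x, fun _ _ => rfl⟩
  have hUU : Uᴴ * U = 1 := by
    ext i j
    rw [Matrix.mul_apply, Matrix.one_apply]
    have h1 := orthonormal_iff_ite.1 b.orthonormal i j
    rw [PiLp.inner_apply] at h1
    rw [← h1]
    refine Finset.sum_congr rfl fun x _ => ?_
    rw [Matrix.conjTranspose_apply, hU, hU]
    simp [mul_comm]
  refine ⟨U, V, fun i => Real.sqrt (l i), hUU, hVV, fun i => Real.sqrt_nonneg _, ?_⟩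
  have hAU : A = U * Matrix.diagonal (fun i => ((Real.sqrt (l i) : ℝ) : ℂ)) := by
    ext x i
    rw [Matrix.mul_diagonal]
    have h1 := congrArg (fun w : EuclideanSpace ℂ ι => w x) (hab i)
    simp only [ha, PiLp.smul_apply, smul_eq_mul] at h1
    rw [hU, mul_comm]
    exact h1
  rw [← hAU, hA, Matrix.mul_assoc, hVV', Matrix.mul_one]

lemma entry_le {U : Matrix ι ι ℂ} (h : Uᴴ * U = 1) (x i : ι) : ‖U x i‖ ≤ 1 := by
  have h1 := congrFun (congrFun h i) i
  rw [Matrix.mul_apply, Matrix.one_apply_eq] at h1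
  have h2 : ∑ y, ‖U y i‖ ^ 2 = 1 := by
    have h3 : ((∑ y, ‖U y i‖ ^ 2 : ℝ) : ℂ) = 1 := by
      rw [← h1]
      push_cast
      refine Finset.sum_congr rfl fun y _ => ?_
      rw [Matrix.conjTranspose_apply]
      exact (Complex.conj_mul' _).symm
    exact_mod_cast h3
  have h3 : ‖U x i‖ ^ 2 ≤ 1 := by
    rw [← h2]
    exact Finset.single_le_sum (f := fun y => ‖U y i‖ ^ 2) (fun y _ => sq_nonneg _)
      (Finset.mem_univ x)
  exact (sq_le_one_iff₀ (norm_nonneg _)).1 h3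

lemma det_norm {U : Matrix ι ι ℂ} (h : Uᴴ * U = 1) : ‖U.det‖ = 1 := by
  have h1 := congrArg Matrix.det h
  rw [Matrix.det_mul, Matrix.det_one, Matrix.det_conjTranspose] at h1
  have h2 := congrArg (fun z : ℂ => ‖z‖) h1
  simp only [norm_mul, norm_one] at h2
  rw [show ‖star U.det‖ = ‖U.det‖ from norm_star _] at h2
  nlinarith [norm_nonneg U.det]

lemma Q_eq {U V : Matrix ι ι ℂ} {s : ι → ℝ} (hU : Uᴴ * U = 1) (hV : Vᴴ * V = 1) (δ : ℝ) :
    Q (U * Matrix.diagonal (fun i => (s i : ℂ)) * Vᴴ) δ =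
      U * Matrix.diagonal (fun i => ((s i ^ 2 + δ ^ 2 : ℝ) : ℂ)) * Uᴴ := by
  have hU' : U * Uᴴ = 1 := mul_eq_one_comm.1 hU
  unfold Q
  have h1 : (U * Matrix.diagonal (fun i => (s i : ℂ)) * Vᴴ) *
      (U * Matrix.diagonal (fun i => (s i : ℂ)) * Vᴴ)ᴴ =
      U * Matrix.diagonal (fun i => ((s i ^ 2 : ℝ) : ℂ)) * Uᴴ := by
    rw [Matrix.conjTranspose_mul, Matrix.conjTranspose_mul, Matrix.conjTranspose_conjTranspose,
      Matrix.diagonal_conjTranspose]
    calc U * Matrix.diagonal (fun i => (s i : ℂ)) * Vᴴ * (V * (Matrix.diagonal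
          (star fun i => (s i : ℂ)) * Uᴴ)) =
        U * (Matrix.diagonal (fun i => (s i : ℂ)) * ((Vᴴ * V) * Matrix.diagonal
          (star fun i => (s i : ℂ)))) * Uᴴ := by simp only [Matrix.mul_assoc]
      _ = _ := by
        rw [hV, Matrix.one_mul, Matrix.diagonal_mul_diagonal]
        congr 3
        funext i
        simp only [Pi.star_apply, RCLike.star_def, Complex.conj_ofReal]
        push_cast
        ring
  have h2 : (((δ ^ 2 : ℝ) : ℂ) • (1 : Matrix ι ι ℂ)) =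
      U * Matrix.diagonal (fun _ => ((δ ^ 2 : ℝ) : ℂ)) * Uᴴ := by
    have h3 : Matrix.diagonal (fun _ : ι => ((δ ^ 2 : ℝ) : ℂ)) =
        ((δ ^ 2 : ℝ) : ℂ) • (1 : Matrix ι ι ℂ) := by
      rw [← Matrix.smul_one_eq_diagonal]
    rw [h3, Matrix.mul_smul, Matrix.mul_one, Matrix.smul_mul, hU']
  rw [h1, h2, ← Matrix.add_mul, ← Matrix.mul_add, Matrix.diagonal_add]
  congr 3
  funext i
  push_cast
  ring

end svd

lemma factor_ineq (l δ : ℝ) (hδ : 0 < δ) (hl : δ ^ 2 ≤ l) :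
    (l + δ ^ 2) * Real.exp (-(2 * δ ^ 2 / (l + δ ^ 2))) ≤ l := by
  have hd : 0 < δ ^ 2 := by positivity
  have hL : 0 < l + δ ^ 2 := by linarith
  obtain ⟨t, ht⟩ : ∃ t, t = δ ^ 2 / (l + δ ^ 2) := ⟨_, rfl⟩
  have ht0 : 0 ≤ t := by rw [ht]; positivity
  have ht1 : t ≤ 1 / 2 := by
    rw [ht, div_le_iff₀ hL]
    linarith
  have h1 : 2 * δ ^ 2 / (l + δ ^ 2) = 2 * t := by rw [ht]; ring
  have h2 : l = (l + δ ^ 2) * (1 - t) := by
    rw [ht]
    field_simp
    ring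
  rw [h1]
  conv_rhs => rw [h2]
  refine mul_le_mul_of_nonneg_left ?_ hL.le
  rw [Real.exp_neg]
  have h3 : 1 + 2 * t ≤ Real.exp (2 * t) := by linarith [Real.add_one_le_exp (2 * t)]
  have h4 : (Real.exp (2 * t))⁻¹ ≤ (1 + 2 * t)⁻¹ := inv_anti₀ (by linarith) h3
  refine h4.trans ?_
  rw [inv_le_iff_one_le_mul₀ (by linarith)]
  nlinarith

theorem se : S_SE := by
  intro ι _ _ M δ hδ hδ2
  classical
  obtain ⟨U, V, s, hU, hV, hs, hM⟩ := svd M
  have hU' : U * Uᴴ = 1 := mul_eq_one_comm.1 hU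
  have hQ : Q M δ = U * Matrix.diagonal (fun i => ((s i ^ 2 + δ ^ 2 : ℝ) : ℂ)) * Uᴴ := by
    rw [hM]; exact Q_eq hU hV δ
  have hpos : ∀ i, 0 < s i ^ 2 + δ ^ 2 := fun i => by positivity
  have hdetU : U.det * Uᴴ.det = 1 := by
    rw [← Matrix.det_mul, hU', Matrix.det_one]
  have hdet : (Q M δ).det = ((∏ i, (s i ^ 2 + δ ^ 2) : ℝ) : ℂ) := by
    rw [hQ, Matrix.det_mul, Matrix.det_mul, Matrix.det_diagonal]
    push_cast
    calc U.det * (∏ i, ((s i : ℂ) ^ 2 + (δ : ℂ) ^ 2)) * Uᴴ.det =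
        (∏ i, ((s i : ℂ) ^ 2 + (δ : ℂ) ^ 2)) * (U.det * Uᴴ.det) := by ring
      _ = _ := by rw [hdetU, mul_one]
  have hinv : (Q M δ)⁻¹ = U * Matrix.diagonal (fun i => (((s i ^ 2 + δ ^ 2)⁻¹ : ℝ) : ℂ)) * Uᴴ := by
    refine Matrix.inv_eq_right_inv ?_
    rw [hQ]
    calc U * Matrix.diagonal (fun i => ((s i ^ 2 + δ ^ 2 : ℝ) : ℂ)) * Uᴴ *
          (U * Matrix.diagonal (fun i => (((s i ^ 2 + δ ^ 2)⁻¹ : ℝ) : ℂ)) * Uᴴ) =
        U * (Matrix.diagonal (fun i => ((s i ^ 2 + δ ^ 2 : ℝ) : ℂ)) * ((Uᴴ * U) *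
          Matrix.diagonal (fun i => (((s i ^ 2 + δ ^ 2)⁻¹ : ℝ) : ℂ)))) * Uᴴ := by
          simp only [Matrix.mul_assoc]
      _ = U * 1 * Uᴴ := by
        rw [hU, Matrix.one_mul, Matrix.diagonal_mul_diagonal]
        congr 2
        rw [← Matrix.diagonal_one]
        congr 1
        funext i
        rw [← Complex.ofReal_mul, mul_inv_cancel₀ (hpos i).ne', Complex.ofReal_one]
      _ = 1 := by rw [Matrix.mul_one, hU']
  have htr : ((Q M δ)⁻¹).trace.re = ∑ i, (s i ^ 2 + δ ^ 2)⁻¹ := by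
    rw [hinv, Matrix.trace_mul_comm, ← Matrix.mul_assoc, hU, Matrix.one_mul, Matrix.trace_diagonal]
    rw [← Complex.ofReal_sum, Complex.ofReal_re]
  have htg : 2 * δ * tg M δ = ∑ i, 2 * δ ^ 2 / (s i ^ 2 + δ ^ 2) := by
    unfold tg
    rw [htr, ← mul_assoc, Finset.mul_sum]
    refine Finset.sum_congr rfl fun i _ => ?_
    rw [div_eq_mul_inv]; ring
  have hld : ld M δ = ∑ i, Real.log (s i ^ 2 + δ ^ 2) := by
    unfold ld
    rw [hdet, Complex.ofReal_re, Real.log_prod (fun i _ => (hpos i).ne')]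
  obtain ⟨I, hI⟩ : ∃ I : Finset ι, I = Finset.univ.filter (fun i => s i ^ 2 < δ ^ 2) := ⟨_, rfl⟩
  have hmem : ∀ i, i ∈ I ↔ s i ^ 2 < δ ^ 2 := by intro i; rw [hI]; simp
  obtain ⟨e⟩ : Nonempty (Fin I.card ≃ I) := ⟨I.equivFin.symm⟩
  refine ⟨I.card, ?_, fun i x => U x (e i).1, fun i y => Vᴴ (e i).1 y, ?_, ?_⟩
  · rw [htg]
    calc (I.card : ℝ) = ∑ i ∈ I, (1 : ℝ) := by simp
      _ ≤ ∑ i ∈ I, 2 * δ ^ 2 / (s i ^ 2 + δ ^ 2) := by
        refine Finset.sum_le_sum fun i hi => ?_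
        rw [le_div_iff₀ (hpos i)]
        have := (hmem i).1 hi
        linarith
      _ ≤ _ := Finset.sum_le_sum_of_subset_of_nonneg (Finset.subset_univ _) fun i _ _ =>
        div_nonneg (by positivity) (hpos i).le
  · intro i x
    refine ⟨entry_le hU x _, ?_⟩
    have h1 : ‖Vᴴ (e i).1 x‖ ≤ 1 := by
      rw [Matrix.conjTranspose_apply, norm_star]
      exact entry_le hV x _
    exact h1
  · have hE : (∑ i : Fin I.card, Matrix.vecMulVec (fun x => U x (e i).1)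
        (fun y => Vᴴ (e i).1 y)) =
        U * Matrix.diagonal (fun i => if i ∈ I then (1 : ℂ) else 0) * Vᴴ := by
      have h1 : (∑ i : Fin I.card, Matrix.vecMulVec (fun x => U x (e i).1)
          (fun y => Vᴴ (e i).1 y)) =
          ∑ i : I, Matrix.vecMulVec (fun x => U x i.1) (fun y => Vᴴ i.1 y) :=
        e.sum_comp (fun i : I => Matrix.vecMulVec (fun x => U x i.1) (fun y => Vᴴ i.1 y))
      rw [h1]
      ext x y
      rw [Matrix.sum_apply, Matrix.mul_apply]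
      simp only [Matrix.mul_diagonal, Matrix.vecMulVec_apply, mul_ite, mul_one, mul_zero, ite_mul,
        zero_mul]
      rw [Finset.sum_ite_mem, Finset.univ_inter]
      exact Finset.sum_coe_sort I (fun i => U x i * Vᴴ i y)
    rw [hE]
    have hsum : M + U * Matrix.diagonal (fun i => if i ∈ I then (1 : ℂ) else 0) * Vᴴ =
        U * Matrix.diagonal (fun i => ((s i + if i ∈ I then 1 else 0 : ℝ) : ℂ)) * Vᴴ := by
      conv_lhs => rw [hM]
      rw [← Matrix.add_mul, ← Matrix.mul_add, Matrix.diagonal_add]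
      congr 3
      funext i
      by_cases h : i ∈ I <;> simp [h]
    rw [hsum, Matrix.det_mul, Matrix.det_mul, Matrix.det_diagonal, norm_mul, norm_mul, det_norm hU,
      Matrix.det_conjTranspose, norm_star, det_norm hV, one_mul, mul_one, ← Complex.ofReal_prod,
      Complex.norm_real, Real.norm_eq_abs, sq_abs, ← Finset.prod_pow]
    rw [hld, htg, ← Finset.sum_sub_distrib, Real.exp_sum]
    refine Finset.prod_le_prod (fun i _ => (Real.exp_pos _).le) fun i _ => ?_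
    rw [sub_eq_add_neg, Real.exp_add, Real.exp_log (hpos i)]
    by_cases h : i ∈ I
    · rw [if_pos h]
      have h1 := (hmem i).1 h
      have h2 : Real.exp (-(2 * δ ^ 2 / (s i ^ 2 + δ ^ 2))) ≤ 1 := by
        rw [Real.exp_le_one_iff]
        have : 0 ≤ 2 * δ ^ 2 / (s i ^ 2 + δ ^ 2) := div_nonneg (by positivity) (hpos i).le
        linarith
      have h3 : s i ^ 2 + δ ^ 2 ≤ 1 := by nlinarith
      calc (s i ^ 2 + δ ^ 2) * Real.exp (-(2 * δ ^ 2 / (s i ^ 2 + δ ^ 2)))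
          ≤ (s i ^ 2 + δ ^ 2) * 1 := mul_le_mul_of_nonneg_left h2 (hpos i).le
        _ ≤ 1 := by linarith
        _ ≤ (s i + 1) ^ 2 := by nlinarith [hs i]
    · rw [if_neg h, add_zero]
      have h1 : δ ^ 2 ≤ s i ^ 2 := by
        rw [hmem] at h
        exact not_lt.1 h
      exact factor_ineq _ _ hδ h1

end Pool.Agent.W465.GB
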